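import Pool.Agent.Q222.VG.Code

/-!
# Polynomial vertex growth is undecidable (MP_4873f0)

No algorithm decides whether a finite set of `n × n` matrices with rational entries has polynomial
vertex growth, even for a fixed dimension and a fixed number of matrices.
-/

set_option autoImplicit false

namespace Pool.Agent.Results.MP_4873f0_lc.Undecidable

open Matrix

/-! ### Instances -/

/-- The triple `(p, q, s)` codes the rational number `(p - q) / (s + 1)`. -/
noncomputable def val (c : ℕ × ℕ × ℕ) : ℝ := ((c.1 : ℝ) - c.2.1) / (c.2.2 + 1)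

/-- The `n × n` matrix coded by a list of rows, each a list of codes of entries (a missing entry
is read as `0`). -/
noncomputable def matOf (n : ℕ) (m : List (List (ℕ × ℕ × ℕ))) : Matrix (Fin n) (Fin n) ℝ :=
  Matrix.of fun i j => val ((m.getD i []).getD j (0, 0, 0))

/-- The finite set of `n × n` matrices coded by a list. -/
def mats (n : ℕ) (l : List (List (List (ℕ × ℕ × ℕ)))) : Set (Matrix (Fin n) (Fin n) ℝ) :=
  {T | ∃ m ∈ l, T = matOf n m}

/-! ### Vertex growth -/

/-- The states `T_{k-1} ⋯ T_0 a` with `T_0, …, T_{k-1}` in `S`. -/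
def reach {n : ℕ} (S : Set (Matrix (Fin n) (Fin n) ℝ)) (a : Fin n → ℝ) : ℕ → Set (Fin n → ℝ)
  | 0 => {a}
  | k + 1 => {y | ∃ T ∈ S, ∃ x ∈ reach S a k, y = T *ᵥ x}

/-- `N_k(S, a)`: the number of extreme points of the convex hull of the states reachable in `k`
steps (a finite number for finite `S`, as there are finitely many such states). -/
noncomputable def numVertices {n : ℕ} (S : Set (Matrix (Fin n) (Fin n) ℝ)) (a : Fin n → ℝ)
    (k : ℕ) : ℕ :=
  ((convexHull ℝ (reach S a k)).extremePoints ℝ).ncard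

/-- Polynomial vertex growth: the supremum over `a` of `N_k(S, a)` is at most `α k ^ d` for all
large `k`. -/
def PolyVertexGrowth {n : ℕ} (S : Set (Matrix (Fin n) (Fin n) ℝ)) : Prop :=
  ∃ α d : ℝ, 0 < α ∧ 0 < d ∧ ∃ k₀ : ℕ, 0 < k₀ ∧ ∀ k, k₀ ≤ k → ∀ a : Fin n → ℝ,
    (numVertices S a k : ℝ) ≤ α * (k : ℝ) ^ d

/-! ### The codes cover all instances -/

theorem exists_val (q : ℚ) : ∃ c, val c = (q : ℝ) := by
  refine ⟨(q.num.toNat, (-q.num).toNat, q.den - 1), ?_⟩
  have h1 : ((q.num.toNat : ℕ) : ℝ) - ((-q.num).toNat : ℕ) = (q.num : ℝ) := by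
    have : ((q.num.toNat : ℕ) : ℤ) - ((-q.num).toNat : ℕ) = q.num := by omega
    exact_mod_cast this
  have h2 : ((q.den - 1 : ℕ) : ℝ) + 1 = (q.den : ℝ) := by
    have := q.den_pos
    have h3 : q.den - 1 + 1 = q.den := by omega
    exact_mod_cast h3
  simp only [val]
  rw [h1, h2]
  exact_mod_cast (Rat.num_div_den q)

/-- Every finite list of rational `n × n` matrices has a code. -/
theorem exists_code (n : ℕ) (l : List (Matrix (Fin n) (Fin n) ℚ)) :
    ∃ cs, cs.length = l.length ∧ mats n cs = {T | ∃ M ∈ l, T = M.map fun q : ℚ => (q : ℝ)} := by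
  choose f hf using exists_val
  let g : Matrix (Fin n) (Fin n) ℚ → List (List (ℕ × ℕ × ℕ)) := fun M =>
    List.ofFn fun i => List.ofFn fun j => f (M i j)
  have hg : ∀ M, matOf n (g M) = M.map fun q : ℚ => (q : ℝ) := by
    intro M
    ext i j
    simp only [matOf, g, Matrix.of_apply, Matrix.map_apply]
    rw [Q222.VG.ofFn_getD, Q222.VG.ofFn_getD, hf]
  refine ⟨l.map g, by simp, ?_⟩
  ext T
  constructor
  · rintro ⟨m, hm, rfl⟩
    obtain ⟨M, hM, rfl⟩ := List.mem_map.1 hm
    exact ⟨M, hM, hg M⟩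
  · rintro ⟨M, hM, rfl⟩
    exact ⟨g M, List.mem_map.2 ⟨M, hM, rfl⟩, (hg M).symm⟩

/-! ### The theorem -/

theorem reach_eq {n : ℕ} (S : Set (Matrix (Fin n) (Fin n) ℝ)) (a : Fin n → ℝ) (k : ℕ) :
    reach S a k = Q222.VG.reach S a k := by
  induction k with
  | zero => rfl
  | succ k ih =>
    simp only [reach, Q222.VG.reach]
    rw [ih]

theorem poly_iff {n : ℕ} (S : Set (Matrix (Fin n) (Fin n) ℝ)) :
    PolyVertexGrowth S ↔ Q222.VG.PolyGrowth S := by
  unfold PolyVertexGrowth Q222.VG.PolyGrowth numVertices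
  simp only [reach_eq]

/-- There are a dimension `n` and a number `L` such that every algorithm `A` (on the codes
`(n, l)` of all instances) fails on some list of `L` rational `n × n` matrices to decide whether
the set of these matrices has polynomial vertex growth. -/
theorem result : ∃ n L : ℕ, 1 ≤ n ∧ 1 ≤ L ∧
    ∀ A : ℕ × List (List (List (ℕ × ℕ × ℕ))) → Bool, Computable A →
      ∃ l : List (List (List (ℕ × ℕ × ℕ))), l.length = L ∧
        ¬ (A (n, l) = true ↔ PolyVertexGrowth (mats n l)) := by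
  obtain ⟨Z, n, L, c, hZ, -, hn, hL, hc, hlen, hiff⟩ := Q222.VG.exists_codes
  refine ⟨n, L, hn, hL, fun A hA => ?_⟩
  by_contra hcon
  push Not at hcon
  apply hZ
  have key : ∀ a, Z a ↔ (!A (n, c a)) = true := by
    intro a
    have h1 := hcon (c a) (hlen a)
    have h2 : PolyVertexGrowth (mats n (c a)) ↔ ¬ Z a := by
      rw [poly_iff]
      exact hiff a
    rw [h2] at h1
    rw [Bool.not_eq_true', ← Bool.not_eq_true, h1, not_not]
  have hcomp : Computable fun a => !A (n, c a) :=
    Primrec.not.to_comp.comp (hA.comp ((Computable.const n).pair hc.to_comp))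
  exact ComputablePred.computable_iff.2 ⟨_, hcomp, funext fun a => propext (key a)⟩

end Pool.Agent.Results.MP_4873f0_lc.Undecidable
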